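import Pool.Agent.KTB.StmtsKD

/-!
# Squad KTB, row DST
-/

set_option autoImplicit false

namespace Pool.Agent.KTB.H31

open Pool.Agent.KTB Finset
open scoped Classical

theorem dst (two : TwoStmt) (_frt : FrtStmt) : DstStmt := by
  intro ι T _ D S K P Q μ k t hI hF hPK hQ1 hQ2 hQ3
  have hsgN : ∀ y ∈ D.sg S t, y ∈ D.N S := by
    intro y hy
    obtain ⟨hyS, c, hc, hρ⟩ := Finset.mem_filter.1 hy
    obtain ⟨-, ρ, hρR, hρt⟩ := Finset.mem_filter.1 hF.tN
    refine Finset.mem_filter.2 ⟨hyS, ρ, hρR, ?_⟩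
    rw [hρ ρ hρR]
    exact mul_ne_zero hc hρt
  have hsub : ((D.sg S t).filter fun y => ∃ p ∈ P, D.x p y ≠ 0).erase t ⊆
      (P ∩ D.par S K t).biUnion (D.E S) := by
    intro y hy
    obtain ⟨hyt, hyG⟩ := Finset.mem_erase.1 hy
    obtain ⟨hysg, p, hp, hpy⟩ := Finset.mem_filter.1 hyG
    obtain ⟨j, hj, hjy⟩ := hF.cls y hysg hyt
    obtain ⟨k0, hk0, -, hk0'⟩ := hI.cov y (hsgN y hysg)
    have hjK : j ∈ K := (Finset.mem_filter.1 hj).1
    have e1 : j = k0 := by
      by_contra h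
      exact hjy (hk0' j hjK h)
    have e2 : p = k0 := by
      by_contra h
      exact hpy (hk0' p (hPK hp) h)
    refine Finset.mem_biUnion.2 ⟨j, Finset.mem_inter.2 ⟨?_, hj⟩, ?_⟩
    · rw [e1, ← e2]
      exact hp
    · exact Finset.mem_filter.2 ⟨(Finset.mem_filter.1 hysg).1, hjy⟩
  have hE : ∀ j ∈ P ∩ D.par S K t, (D.E S j).card ≤ 2 := by
    intro j hj
    have hj' := (Finset.mem_inter.1 hj).2
    rcases (D.E S j).eq_empty_or_nonempty with h | ⟨y, hy⟩
    · rw [h, Finset.card_empty]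
      omega
    · obtain ⟨hyS, hjy⟩ := Finset.mem_filter.1 hy
      obtain ⟨y', -, -, -, -, -, hcl⟩ := hF.pair j hj' y hyS hjy
      have hs : D.E S j ⊆ {y, y'} := by
        intro b hb
        obtain ⟨hbS, hjb⟩ := Finset.mem_filter.1 hb
        by_contra hn
        rw [Finset.mem_insert, Finset.mem_singleton, not_or] at hn
        exact hjb (hcl b hbS hn.1 hn.2)
      exact (Finset.card_le_card hs).trans Finset.card_le_two
  have hcard : (((D.sg S t).filter fun y => ∃ p ∈ P, D.x p y ≠ 0).erase t).card ≤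
      2 * (P ∩ D.par S K t).card := by
    refine (Finset.card_le_card hsub).trans ?_
    refine Finset.card_biUnion_le.trans ?_
    refine (Finset.sum_le_sum hE).trans ?_
    rw [Finset.sum_const, smul_eq_mul, mul_comm]
  have h1 : ((D.sg S t).filter fun y => ∃ p ∈ P, D.x p y ≠ 0).card ≤
      2 * (P ∩ D.par S K t).card + 1 := by
    have h := Finset.pred_card_le_card_erase
      (s := (D.sg S t).filter fun y => ∃ p ∈ P, D.x p y ≠ 0) (a := t)
    omega
  refine ⟨h1, ?_, ?_⟩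
  · intro hP
    have ht : t ∉ (D.sg S t).filter fun y => ∃ p ∈ P, D.x p y ≠ 0 := by
      intro h
      obtain ⟨-, p, hp, hpt⟩ := Finset.mem_filter.1 h
      exact hpt (hP p hp)
    rw [Finset.erase_eq_of_notMem ht] at hcard
    exact hcard
  · have hA : ((Q.filter fun q => ∀ y ∈ D.N S, D.x q y ≠ 0 → y ∈ D.sg S t).biUnion
        fun q => (D.N S).filter fun y => D.x q y ≠ 0) ⊆
        (D.sg S t).filter fun y => ∃ p ∈ P, D.x p y ≠ 0 := by
      intro y hy
      obtain ⟨q, hq, hyq⟩ := Finset.mem_biUnion.1 hy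
      obtain ⟨hqQ, hq'⟩ := Finset.mem_filter.1 hq
      obtain ⟨hyN, hxy⟩ := Finset.mem_filter.1 hyq
      exact Finset.mem_filter.2 ⟨hq' y hyN hxy, hQ2 y hyN q hqQ hxy⟩
    have hdis : (↑(Q.filter fun q => ∀ y ∈ D.N S, D.x q y ≠ 0 → y ∈ D.sg S t) :
        Set T).PairwiseDisjoint (fun q => (D.N S).filter fun y => D.x q y ≠ 0) := by
      intro q hq q' hq' hne
      rw [Function.onFun, Finset.disjoint_left]
      intro y hy hy'
      obtain ⟨hyN, hxy⟩ := Finset.mem_filter.1 hy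
      obtain ⟨-, hxy'⟩ := Finset.mem_filter.1 hy'
      have hqQ : q ∈ Q := (Finset.mem_filter.1 (Finset.mem_coe.1 hq)).1
      have hqQ' : q' ∈ Q := (Finset.mem_filter.1 (Finset.mem_coe.1 hq')).1
      have h2 := hQ1 y hyN
      have h3 : ∑ i ∈ ({q, q'} : Finset T), D.x i y ≤ ∑ i ∈ Q, D.x i y := by
        refine Finset.sum_le_sum_of_subset ?_
        intro i hi
        rw [Finset.mem_insert, Finset.mem_singleton] at hi
        rcases hi with rfl | rfl
        · exact hqQ
        · exact hqQ'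
      rw [Finset.sum_pair hne] at h3
      omega
    have h4 := Finset.card_le_card hA
    rw [Finset.card_biUnion hdis] at h4
    have h5 : ∑ q ∈ Q.filter (fun q => ∀ y ∈ D.N S, D.x q y ≠ 0 → y ∈ D.sg S t), 2 ≤
        ∑ q ∈ Q.filter (fun q => ∀ y ∈ D.N S, D.x q y ≠ 0 → y ∈ D.sg S t),
          ((D.N S).filter fun y => D.x q y ≠ 0).card := by
      refine Finset.sum_le_sum ?_
      intro q hq
      exact two ι T D S q (hQ3 q (Finset.mem_filter.1 hq).1)
    rw [Finset.sum_const, smul_eq_mul] at h5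
    omega

end Pool.Agent.KTB.H31
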